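import Pool.Agent.R550.BI.Hard

/-!
# Upper broadcast number and upper broadcast irredundance number are NP-hard
-/

namespace Pool.Agent.Results.MP_7a9dcc_lc.UpperNPHard

open Pool.Agent.R550.BI Pool.Agent.NPC Pool.Agent.H692R2

/-- Deciding `Γ_b(G) ≥ t` and deciding `IR_b(G) ≥ t` (for connected graphs `G` with at least two
vertices, given by their adjacency matrices) are NP-hard. -/
theorem result : NPHardP UpperBroadcast ∧ NPHardP UpperIrredundance := hard

end Pool.Agent.Results.MP_7a9dcc_lc.UpperNPHard
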